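import Pool.Agent.H.MP_e9afb0.A

set_option autoImplicit false
open Set Topology

namespace Pool.Agent.H.MP_e9afb0

abbrev KK (X : Type) [NormedAddCommGroup X] [NormedSpace ℝ X] : Type :=
  {φ : WeakDual ℝ X // ∀ x : X, |φ x| ≤ ‖x‖}

variable {X : Type} [NormedAddCommGroup X] [NormedSpace ℝ X]

instance : CompactSpace (KK X) := by
  refine isCompact_iff_compactSpace.1 ?_
  convert WeakDual.isCompact_closedBall (0 : StrongDual ℝ X) 1 using 1
  ext f
  rw [mem_preimage, mem_closedBall_zero_iff, ContinuousLinearMap.opNorm_le_iff zero_le_one]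
  simp only [one_mul]
  rfl

theorem cont (x : X) : Continuous fun k : KK X => k.1 x :=
  (WeakDual.eval_continuous x).comp continuous_subtype_val

theorem ext' {J : Type} {e : J → X} (hd : Dense (Submodule.span ℝ (range e) : Set X))
    {f g : X →L[ℝ] ℝ} (h : ∀ i, f (e i) = g (e i)) : f = g :=
  ContinuousLinearMap.ext_on hd (by rintro _ ⟨i, rfl⟩; exact h i)

variable {I : Type}

theorem fin {e : ℕ × I → X} (hb : ∀ (n : ℕ) (s : Finset I) (c : I → ℝ), (∀ b, |c b| ≤ 1) →
    ‖∑ b ∈ s, c b • e (n, b)‖ ≤ 2) (k : KK X) (n : ℕ) {ε : ℝ} (hε : 0 < ε) :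
    {b | ε ≤ |k.1 (e (n, b))|}.Finite := by
  by_contra h
  obtain ⟨m, hm⟩ := exists_nat_gt (2 / ε)
  obtain ⟨s, h1, h2⟩ := Set.Infinite.exists_subset_card_eq h m
  have h3 := (le_abs_self _).trans ((k.2 _).trans (hb n s
    (fun b => (SignType.sign (k.1 (e (n, b))) : ℝ)) fun b => by
      rcases SignType.trichotomy (SignType.sign (k.1 (e (n, b)))) with h | h | h <;> simp [h]))
  simp only [map_sum, map_smul, smul_eq_mul, sign_mul_self] at h3
  have h4 := Finset.card_nsmul_le_sum s (fun b => |k.1 (e (n, b))|) ε fun b hb => h1 hb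
  rw [h2, nsmul_eq_mul] at h4
  rw [div_lt_iff₀ hε] at hm
  linarith

theorem se {e : ℕ × I → X} (hd : Dense (Submodule.span ℝ (range e) : Set X))
    (hb : ∀ (n : ℕ) (s : Finset I) (c : I → ℝ), (∀ b, |c b| ≤ 1) →
    ‖∑ b ∈ s, c b • e (n, b)‖ ≤ 2) : ∃ (Γ : Type) (h : KK X → (Γ → ℝ)), IsEmbedding h ∧
      (∀ k γ, h k γ ∈ Icc (0 : ℝ) 1) ∧ Dense {k | ∀ ε : ℝ, ε > 0 → {γ : Γ | ε ≤ |h k γ|}.Finite} := by
  have h2 : ∀ (k : KK X) i, |k.1 (e i)| ≤ 2 := fun k i => by
    simpa using (k.2 _).trans (hb i.1 {i.2} (fun _ => 1) (by simp))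
  let h : KK X → ℕ × I → ℝ := fun k i => k.1 (e i) / (2 * (i.1 + 1))
  have hc : ∀ i, Continuous fun k => h k i := fun i => (cont _).div_const _
  have h1 : ∀ k i, |h k i| ≤ 1 / (i.1 + 1) := fun k i => by
    simp only [h]
    rw [abs_div, abs_of_pos (by positivity : (0 : ℝ) < 2 * (i.1 + 1)), div_le_div_iff₀
      (by positivity) (by positivity)]
    have := h2 k i
    have : (0 : ℝ) < i.1 + 1 := by positivity
    nlinarith
  have h3 : ∀ k i, |h k i| ≤ 1 := fun k i => (h1 k i).trans (by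
    rw [div_le_one (by positivity)]
    simp)
  refine ⟨(ℕ × I) × Bool, fun k p => max (if p.2 then h k p.1 else -h k p.1) 0,
    (Continuous.isClosedEmbedding (continuous_pi fun p => ?_) ?_).isEmbedding,
    fun k p => ⟨le_max_right _ _, max_le ?_ zero_le_one⟩, ?_⟩
  · refine Continuous.max ?_ continuous_const
    split_ifs
    exacts [hc _, (hc _).neg]
  · intro f g hfg
    refine Subtype.ext (ext' hd fun i => ?_)
    have e1 := congrFun hfg (i, true)
    have e2 := congrFun hfg (i, false)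
    simp only [if_true, Bool.false_eq_true, if_false] at e1 e2
    have : h f i = h g i := by
      rw [← max_zero_sub_max_neg_zero_eq_self (h f i), e1, e2, max_zero_sub_max_neg_zero_eq_self]
    exact (div_left_inj' (by positivity)).1 this
  · split_ifs
    exacts [(abs_le.1 (h3 k _)).2, by linarith [(abs_le.1 (h3 k p.1)).1]]
  · refine dense_univ.mono fun k _ ε hε => ?_
    obtain ⟨m, hm⟩ := exists_nat_gt (1 / ε)
    refine (((finite_Iic m).biUnion fun n _ => (finite_singleton n).prod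
      (fin hb k n hε)).prod finite_univ).subset fun p hp => ⟨?_, trivial⟩
    have h4 : ε ≤ |h k p.1| := by
      refine le_trans hp ?_
      rw [abs_of_nonneg (le_max_right _ _)]
      refine max_le ?_ (abs_nonneg _)
      split_ifs
      exacts [le_abs_self _, neg_le_abs _]
    refine mem_biUnion (x := p.1.1) ?_ ⟨rfl, h4.trans ?_⟩
    · have := h4.trans (h1 k p.1)
      rw [le_div_iff₀ (by positivity)] at this
      rw [div_lt_iff₀ hε] at hm
      have : (p.1.1 : ℝ) < m := by nlinarith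
      exact (Nat.cast_lt.1 this).le
    · simp only [h]
      rw [abs_div, abs_of_pos (by positivity : (0 : ℝ) < 2 * (p.1.1 + 1))]
      exact div_le_self (abs_nonneg _) (by linarith [Nat.cast_nonneg (α := ℝ) p.1.1])

theorem nf [LinearOrder I] [WellFoundedLT I] [Uncountable I] (hc : ∀ a : I, (Iic a).Countable)
    {e : ℕ × I → X} (hd : Dense (Submodule.span ℝ (range e) : Set X))
    (hb : ∀ (n : ℕ) (s : Finset I) (c : I → ℝ), (∀ b, |c b| ≤ 1) →
    ‖∑ b ∈ s, c b • e (n, b)‖ ≤ 2) (P : I → X →L[ℝ] X) (hP : ∀ a x, ‖P a x‖ ≤ ‖x‖)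
    (hPe : ∀ a i, P a (e i) = if i.2 < a then e i else 0)
    (hm : ∀ d, 3 / 2 < ‖e (0, d)‖ ∧ ∀ b < d, ∃ n, ‖(2 : ℝ) • e (0, d) - e (n, b)‖ ≤ 3)
    {Γ : Type} (φ : KK X → Γ → ℝ) (hφ : IsEmbedding φ) :
    ¬ Dense {k | {γ | φ k γ ≠ 0}.Finite} := by
  refine top hc (fun (k : KK X) i => k.1 (e i)) (continuous_pi fun i => cont _)
    (fun f g h => Subtype.ext (ext' hd (congrFun h))) (fun k => ?_)
    (fun a k => ⟨StrongDual.toWeakDual ((WeakDual.toStrongDual k.1).comp (P a)),
      fun x => (k.2 (P a x)).trans (hP a x)⟩) (fun a k i => ?_) (fun d => ?_) φ hφ.continuous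
    hφ.injective
  · refine (countable_iUnion fun n => countable_iUnion fun m : ℕ => ((finite_singleton n).prod
      (fin hb k n (Nat.one_div_pos_of_nat (n := m)))).countable).mono fun i hi => ?_
    obtain ⟨m, hm⟩ := exists_nat_one_div_lt (abs_pos.2 hi)
    exact mem_iUnion₂.2 ⟨i.1, m, rfl, hm.le⟩
  · show k.1 (P a (e i)) = _
    rw [hPe]
    split_ifs
    exacts [rfl, map_zero _]
  · refine ⟨{k | 3 / 2 < k.1 (e (0, d))}, isOpen_lt continuous_const (cont _), ?_,
      fun k hk b hb => ?_⟩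
    · obtain ⟨g, h1, h2⟩ := exists_dual_vector'' ℝ (e (0, d))
      exact ⟨⟨StrongDual.toWeakDual g, fun x => (g.le_opNorm x).trans
        (mul_le_of_le_one_left (norm_nonneg _) h1)⟩, lt_of_lt_of_eq (hm d).1 h2.symm⟩
    · obtain ⟨n, hn⟩ := (hm d).2 b hb
      refine ⟨n, fun h => ?_⟩
      have := (le_abs_self _).trans ((k.2 _).trans hn)
      rw [map_sub, map_smul, smul_eq_mul, h] at this
      have h2 : 3 / 2 < k.1 (e (0, d)) := hk
      linarith

abbrev V (I : Type) : Type := lp (fun _ : I × I => ℝ) ⊤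

theorem con [LinearOrder I] [Nonempty I] [NoMaxOrder I] (hc : ∀ a : I, (Iic a).Countable) :
    ∃ (X : Type) (_ : NormedAddCommGroup X) (_ : NormedSpace ℝ X) (_ : CompleteSpace X)
      (e : ℕ × I → X) (P : I → X →L[ℝ] X), Dense (Submodule.span ℝ (range e) : Set X) ∧
      (∀ (n : ℕ) (s : Finset I) (c : I → ℝ), (∀ b, |c b| ≤ 1) → ‖∑ b ∈ s, c b • e (n, b)‖ ≤ 2) ∧
      (∀ a x, ‖P a x‖ ≤ ‖x‖) ∧ (∀ a i, P a (e i) = if i.2 < a then e i else 0) ∧
      ∀ d, 3 / 2 < ‖e (0, d)‖ ∧ ∀ b < d, ∃ n, ‖(2 : ℝ) • e (0, d) - e (n, b)‖ ≤ 3 := by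
  classical
  have h1 : ∀ d : I, ∃ l : ℕ → I, Iic d = range l := fun d =>
    (hc d).exists_eq_range ⟨d, le_rfl⟩
  choose l hl using h1
  let pt : I → ℕ → I := fun d n => if n = 0 then d else l d (n - 1)
  let w : ℕ → ℝ := fun n => if n = 0 then 2 else 1
  have hw : ∀ n, |w n| ≤ 2 := fun n => by cases n <;> simp [w]
  let f : ℕ × I → I × I → ℝ := fun (i : ℕ × I) (p : I × I) => @ite _ (i.2 < p.1 ∧ i.2 = pt p.2 i.1) (Classical.dec _) (w i.1) 0
  have hf : ∀ i p, ‖f i p‖ ≤ 2 := fun i p => by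
    simp only [f]
    split_ifs
    exacts [hw _, by simp]
  let e : ℕ × I → V I := fun i => ⟨f i, memℓp_infty ⟨2, forall_mem_range.2 (hf i)⟩⟩
  have co : ∀ (z : V I) p, ‖z p‖ ≤ ‖z‖ := fun z p => lp.norm_apply_le_norm (by simp) z p
  have k := fun (a : I) (z : V I) => lp.norm_le_of_forall_le
    (f := (⟨fun p => z (min p.1 a, p.2), memℓp_infty ⟨_, forall_mem_range.2 fun p => co z _⟩⟩ :
      V I)) (norm_nonneg z) fun p => co z _
  let R : I → V I →L[ℝ] V I := fun a => LinearMap.mkContinuous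
    ⟨⟨fun z => ⟨fun p => z (min p.1 a, p.2), memℓp_infty ⟨_, forall_mem_range.2 fun p =>
      co z _⟩⟩, fun _ _ => rfl⟩, fun _ _ => rfl⟩ 1 fun z => (k a z).trans_eq (one_mul _).symm
  have hR : ∀ a i, R a (e i) = if i.2 < a then e i else 0 := fun a i => by
    refine lp.ext (funext fun p => ?_)
    show f i (min p.1 a, p.2) = _
    split_ifs with h
    · show _ = f i p
      simp only [f, lt_min_iff, h, and_true]
      congr
    · simp [f, h]
  let D := Submodule.span ℝ (range e)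
  have m : ∀ i, e i ∈ D.topologicalClosure := fun i =>
    D.le_topologicalClosure (Submodule.subset_span ⟨i, rfl⟩)
  have r : ∀ a, D.topologicalClosure ≤ D.topologicalClosure.comap (R a).toLinearMap := fun a =>
    Submodule.topologicalClosure_minimal _ (Submodule.span_le.2 (by
      rintro _ ⟨i, rfl⟩
      show R a (e i) ∈ D.topologicalClosure
      rw [hR]
      split_ifs
      exacts [m i, zero_mem _])) (D.isClosed_topologicalClosure.preimage (R a).continuous)
  refine ⟨D.topologicalClosure, inferInstance, inferInstance, inferInstance, fun i => ⟨e i, m i⟩,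
    fun a => ((R a).comp D.topologicalClosure.subtypeL).codRestrict _ fun x => r a x.2, ?_,
    fun n s c hc => ?_, fun a x => k a x.1, fun a i => Subtype.ext ?_, fun d => ⟨?_, fun b hb => ?_⟩⟩
  · rw [Subtype.dense_iff]
    refine closure_mono fun x hx => ?_
    have : D = Submodule.map D.topologicalClosure.subtype (Submodule.span ℝ
        (range fun i => (⟨e i, m i⟩ : D.topologicalClosure))) := by
      rw [Submodule.map_span, ← range_comp]
      rfl
    exact (congrArg (x ∈ ·) this).mp hx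
  · rw [Submodule.coe_norm, AddSubmonoidClass.coe_finsetSum]
    refine lp.norm_le_of_forall_le (by norm_num) fun p => ?_
    rw [lp.coeFn_sum, Finset.sum_apply]
    show ‖∑ b ∈ s, c b * f (n, b) p‖ ≤ 2
    by_cases h : pt p.2 n ∈ s
    · rw [Finset.sum_eq_single_of_mem _ h fun b _ hb => by simp [f, hb], norm_mul]
      exact (mul_le_of_le_one_left (norm_nonneg _) (hc _)).trans (hf _ _)
    · rw [Finset.sum_eq_zero fun b hb => by
        simp [f, show b ≠ pt p.2 n from fun e => h (e ▸ hb)]]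
      simp
  · show R a (e i) = _
    rw [hR]
    split_ifs <;> rfl
  · obtain ⟨a, ha⟩ := exists_gt d
    refine lt_of_lt_of_le ?_ (co (e (0, d)) (a, d))
    show _ < ‖f (0, d) (a, d)‖
    simp only [f, pt, w, ha]
    norm_num
  · obtain ⟨n, hn⟩ : b ∈ range (l d) := hl d ▸ hb.le
    refine ⟨n + 1, lp.norm_le_of_forall_le (by norm_num) fun p => ?_⟩
    show ‖2 * f (0, d) p - f (n + 1, b) p‖ ≤ 3
    simp only [f, pt, w, if_true, Nat.succ_ne_zero, if_false, Nat.add_sub_cancel]
    split_ifs with h1 h2 h2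
    · norm_num
    · exact absurd ⟨hb.trans h1.1, h1.2 ▸ hn.symm⟩ h2
    · norm_num
    · norm_num

end Pool.Agent.H.MP_e9afb0
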