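import Pool.Agent.H.Brk.A
import Pool.Agent.H.MP_6ac155.B

set_option autoImplicit false
open Set Topology

namespace Pool.Agent.H.MP_e9afb0
open Pool.Agent.H.Brk

variable {I : Type} [LinearOrder I] [WellFoundedLT I] [Uncountable I]

theorem top (hc : ∀ a : I, (Iic a).Countable) {K Γ : Type} [TopologicalSpace K] [CompactSpace K]
    (E : K → ℕ × I → ℝ) (hE : Continuous E) (hEi : Function.Injective E)
    (hs : ∀ k, {i | E k i ≠ 0}.Countable) (r : I → K → K)
    (hr : ∀ a k i, E (r a k) i = if i.2 < a then E k i else 0)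
    (hU : ∀ d, ∃ U : Set K, IsOpen U ∧ U.Nonempty ∧ ∀ k ∈ U, ∀ b < d, ∃ n, E k (n, b) ≠ 0)
    (φ : K → Γ → ℝ) (hφ : Continuous φ) (hφi : Function.Injective φ)
    (hD : Dense {k | {γ | φ k γ ≠ 0}.Finite}) : False := by
  classical
  have hEc : ∀ i, Continuous fun k => E k i := fun i => (continuous_apply i).comp hE
  have hφc : ∀ i, Continuous fun k => φ k i := fun i => (continuous_apply i).comp hφ
  have dep : ∀ γ, ∃ a, ∀ f g, (∀ i : ℕ × I, i.2 < a → E f i = E g i) → φ f γ = φ g γ := by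
    intro γ
    have h1 : ∀ m : ℕ, ∃ t : Finset (ℕ × I), {p : K × K | 1 / ((m : ℝ) + 1) ≤
        |φ p.1 γ - φ p.2 γ|} ⊆ ⋃ i ∈ t, {p | E p.1 i ≠ E p.2 i} := fun m => by
      refine (isClosed_le continuous_const (((hφc γ).comp continuous_fst).sub
        ((hφc γ).comp continuous_snd)).abs).isCompact.elim_finite_subcover _
        (fun i => isOpen_ne_fun ((hEc i).comp continuous_fst) ((hEc i).comp continuous_snd)) ?_
      intro p hp
      by_contra hn
      simp only [mem_iUnion, mem_ofPred_eq, not_exists, not_not] at hn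
      have : p.1 = p.2 := hEi (funext hn)
      have h2 : 1 / ((m : ℝ) + 1) ≤ |φ p.1 γ - φ p.2 γ| := hp
      rw [this, sub_self, abs_zero] at h2
      exact absurd h2 (not_le.2 (by positivity))
    choose t ht using h1
    obtain ⟨a, ha⟩ := bd hc ((countable_iUnion fun m => (t m).countable_toSet).image Prod.snd)
    refine ⟨a, fun f g h => ?_⟩
    by_contra hn
    obtain ⟨m, hm⟩ := exists_nat_one_div_lt (abs_pos.2 (sub_ne_zero.2 hn))
    obtain ⟨i, hi, h2⟩ := mem_iUnion₂.1 (ht m (show (f, g) ∈ _ from hm.le))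
    exact h2 (h i (ha _ ⟨i, mem_iUnion.2 ⟨m, hi⟩, rfl⟩))
  choose dp hdp using dep
  have dens : ∀ b : I, ∃ T ⊆ {k | {γ | φ k γ ≠ 0}.Finite}, T.Countable ∧
      ∀ (f : K) (s : Finset (ℕ × I)) (δ : ℝ), 0 < δ →
        ∃ d ∈ T, ∀ i ∈ s, i.2 ≤ b → |E d i - E f i| < δ := by
    intro b
    have hcb : {i : ℕ × I | i.2 ≤ b}.Countable := by
      refine ((countable_univ (α := ℕ)).prod (hc b)).mono ?_
      exact fun i hi => ⟨trivial, hi⟩
    have : Countable {i : ℕ × I // i.2 ≤ b} := hcb.to_subtype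
    let π : K → {i : ℕ × I // i.2 ≤ b} → ℝ := fun k i => E k i.1
    have hπ : Continuous π := continuous_pi fun i => hEc _
    obtain ⟨t, h1, h2, h3⟩ := (TopologicalSpace.IsSeparable.of_separableSpace
      (π '' {k | {γ | φ k γ ≠ 0}.Finite})).exists_countable_dense_subset
    choose w hw1 hw2 using fun y : t => h1 y.2
    have := h2.to_subtype
    refine ⟨range w, range_subset_iff.2 hw1, countable_range _, fun f s δ hδ => ?_⟩
    have h4 : π f ∈ closure t := closure_minimal h3 isClosed_closure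
      (image_closure_subset_closure_image hπ ⟨f, hD f, rfl⟩)
    obtain ⟨y, h5, h6⟩ := mem_closure_iff.1 h4 (⋂ i ∈ s.subtype (fun i : ℕ × I => i.2 ≤ b),
      {p | |p i - E f i.1| < δ}) (isOpen_biInter_finset fun i _ =>
        isOpen_lt ((continuous_apply i).sub continuous_const).abs continuous_const)
      (mem_iInter₂.2 fun i _ => by simpa [π] using hδ)
    refine ⟨w ⟨y, h6⟩, ⟨_, rfl⟩, fun i hi hb => ?_⟩
    have := mem_iInter₂.1 h5 ⟨i, hb⟩ (Finset.mem_subtype.2 hi)
    rwa [mem_ofPred_eq, ← show π _ = y from hw2 ⟨y, h6⟩] at this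
  choose T hT1 hT2 hT3 using dens
  have hg : ∀ b, ∃ a, ∀ d ∈ T b, (∀ i, E d i ≠ 0 → i.2 < a) ∧ ∀ γ, φ d γ ≠ 0 → dp γ < a := by
    intro b
    obtain ⟨a, ha⟩ := bd hc (((hT2 b).biUnion fun d _ => (hs d).image Prod.snd).union
      ((hT2 b).biUnion fun d hd => (hT1 b hd).countable.image dp))
    exact ⟨a, fun d hd => ⟨fun i hi => ha _ (Or.inl (mem_biUnion hd ⟨i, hi, rfl⟩)),
      fun i hi => ha _ (Or.inr (mem_biUnion hd ⟨i, hi, rfl⟩))⟩⟩
  choose g hg using hg
  have A : ∀ c a, c < a → (∀ x < a, g x < a) → ∀ γ f, (∀ i : ℕ × I, a ≤ i.2 → E f i = 0) →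
      φ f γ ≠ 0 → dp γ < a := by
    intro c a hca ha γ f hf h0
    have hO : IsOpen {k | φ k γ ≠ 0} := isOpen_ne_fun (hφc γ) continuous_const
    rw [(hE.isClosedEmbedding hEi).isInducing.eq_induced] at hO
    obtain ⟨s, δ, hδ, h1⟩ := MP_6ac155.nb E hO h0
    obtain ⟨b, hb1, hb2⟩ := (insert c ((s.image Prod.snd).filter (· < a))).exists_max_image id
      (Finset.insert_nonempty _ _)
    have hb : b < a := by
      rcases Finset.mem_insert.1 hb1 with h | h
      · exact h ▸ hca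
      · exact (Finset.mem_filter.1 h).2
    obtain ⟨d, hd, h2⟩ := hT3 b f s δ hδ
    refine ((hg b d hd).2 γ (h1 d fun i hi => ?_)).trans (ha b hb)
    by_cases h3 : i.2 < a
    · exact h2 i hi (hb2 _ (Finset.mem_insert_of_mem (Finset.mem_filter.2
        ⟨Finset.mem_image_of_mem _ hi, h3⟩)))
    · have : E d i = 0 := by
        by_contra h4
        exact h3 (((hg b d hd).1 i h4).trans (ha b hb))
      rw [this, hf i (not_lt.1 h3)]
      simpa using hδ
  choose nx hn0 hn1 hn2 using cl hc g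
  have hI : Nonempty I := inferInstance
  obtain ⟨c⟩ := hI
  let a : ℕ → I := fun k => nx (nx^[k] c)
  have ha : StrictMono a := strictMono_nat_of_lt_succ fun k => by
    simp only [a, Function.iterate_succ_apply']
    exact hn1 _
  obtain ⟨δ, hδ⟩ := bd hc (countable_range a)
  obtain ⟨U, hU1, hU2, hU3⟩ := hU δ
  obtain ⟨d, hdU, hd⟩ := hD.inter_open_nonempty U hU1 hU2
  have hz : ∀ x (i : ℕ × I), x ≤ i.2 → E (r x d) i = 0 := fun x i h => by
    rw [hr, if_neg (not_lt.2 h)]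
  have B : ∀ k γ f, (∀ i : ℕ × I, a k ≤ i.2 → E f i = 0) → φ f γ ≠ 0 →
      ∀ l, k ≤ l → φ (r (a l) d) γ = φ d γ := fun k γ f h1 h2 l hl =>
    hdp γ _ _ fun i hi => by
      rw [hr, if_pos ((hi.trans (A _ _ (hn1 _) (hn2 _) γ f h1 h2)).trans_le (ha.monotone hl))]
  have C : ∀ k, ∃ γ, φ (r (a k) d) γ ≠ φ (r (a (k + 1)) d) γ := fun k => by
    by_contra h
    push Not at h
    obtain ⟨n, hn⟩ := hU3 d hdU (a k) (hδ _ ⟨k, rfl⟩)
    have := congrArg (fun f => E f (n, a k)) (hφi (funext h))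
    simp only [hr, lt_irrefl, if_false, ha (Nat.lt_succ_self k), if_true] at this
    exact hn this.symm
  choose γ hγ using C
  have D1 : ∀ k f, (∀ i : ℕ × I, a k ≤ i.2 → E f i = 0) → φ f (γ k) = 0 := fun k f h => by
    by_contra h0
    exact hγ k ((B k _ f h h0 k le_rfl).trans (B k _ f h h0 (k + 1) (Nat.le_succ k)).symm)
  have D2 : ∀ k, φ (r (a (k + 1)) d) (γ k) ≠ 0 := fun k h =>
    hγ k ((D1 k _ (hz _)).trans h.symm)
  have D3 : ∀ j k, j < k → γ j ≠ γ k := fun j k h e =>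
    D2 j (e ▸ D1 k _ fun i hi => hz _ i ((ha.monotone h).trans hi))
  refine infinite_of_injective_forall_mem (f := γ) (fun j k e => ?_) (fun k => ?_) hd
  · rcases lt_trichotomy j k with h | h | h
    · exact absurd e (D3 _ _ h)
    · exact h
    · exact absurd e.symm (D3 _ _ h)
  · exact fun h => D2 k ((B (k + 1) _ _ (hz _) (D2 k) _ le_rfl).trans h)

end Pool.Agent.H.MP_e9afb0
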